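import Pool.Agent.H365.TF.Stm2

set_option autoImplicit false

namespace Pool.Agent.H365.TF

namespace OMGaux

open Finset

theorem avg {A : Type} [Ring A] (a : A) (r N : ℕ) (hN : ((N * r : ℕ) : A) = 1)
    (ha : a ^ r = 1) : ((N : A) * ∑ i ∈ range r, a ^ i) * ((N : A) * ∑ i ∈ range r, a ^ i) =
      (N : A) * ∑ i ∈ range r, a ^ i ∧
    a * ((N : A) * ∑ i ∈ range r, a ^ i) = (N : A) * ∑ i ∈ range r, a ^ i := by
  obtain ⟨S, hS⟩ : ∃ S, S = ∑ i ∈ range r, a ^ i := ⟨_, rfl⟩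
  rw [← hS]
  have h1 : a * S = S := by
    have h2 := mul_geom_sum a r
    rw [ha, sub_self, ← hS, sub_mul, one_mul, sub_eq_zero] at h2
    exact h2
  have h2 : ∀ i : ℕ, a ^ i * S = S := by
    intro i
    induction i with
    | zero => rw [pow_zero, one_mul]
    | succ i ih => rw [pow_succ, mul_assoc, h1, ih]
  have h3 : S * S = (r : A) * S := by
    have h4 : S * S = ∑ i ∈ range r, a ^ i * S := by
      rw [← Finset.sum_mul, ← hS]
    rw [h4, Finset.sum_congr rfl fun i _ => h2 i, Finset.sum_const, card_range, nsmul_eq_mul]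
  have hc : ∀ x : A, x * (N : A) = (N : A) * x := fun x => (Nat.cast_commute N x).symm
  constructor
  · calc (N : A) * S * ((N : A) * S) = (N : A) * (S * (N : A)) * S := by
          rw [mul_assoc, mul_assoc, mul_assoc]
      _ = (N : A) * (N : A) * (S * S) := by rw [hc, ← mul_assoc, mul_assoc]
      _ = (N : A) * ((N : A) * (r : A)) * S := by rw [h3, ← mul_assoc, mul_assoc (N : A)]
      _ = (N : A) * S := by rw [← Nat.cast_mul, hN, mul_one]
  · rw [← mul_assoc, hc, mul_assoc, h1]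

theorem step {W G : Type} [Group W] [Group G] (f : W →* G) {ι : Type} [Fintype ι] [DecidableEq ι]
    (ℓ : ℕ) [Fact ℓ.Prime]
    (hOM : ∀ p : Matrix ι ι (MonoidAlgebra (ZMod ℓ) W), p * p = p →
      p.map (MonoidAlgebra.mapDomainRingHom (ZMod ℓ) f) = 0 → p = 0)
    (g : Matrix ι ι (MonoidAlgebra ℤ W)) (r : ℕ) (hr : ¬ ℓ ∣ r) (hg : g ^ r = 1)
    (hg1 : g.map (MonoidAlgebra.mapDomainRingHom ℤ f) = 1) :
    (MonoidAlgebra.mapRingHom W (Int.castRingHom (ZMod ℓ))).mapMatrix g = 1 := by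
  obtain ⟨φ, hφ⟩ : ∃ φ : Matrix ι ι (MonoidAlgebra ℤ W) →+* Matrix ι ι (MonoidAlgebra (ZMod ℓ) W),
    φ = (MonoidAlgebra.mapRingHom W (Int.castRingHom (ZMod ℓ))).mapMatrix := ⟨_, rfl⟩
  obtain ⟨ψ, hψ⟩ : ∃ ψ : Matrix ι ι (MonoidAlgebra (ZMod ℓ) W) →+*
      Matrix ι ι (MonoidAlgebra (ZMod ℓ) G),
    ψ = (MonoidAlgebra.mapDomainRingHom (ZMod ℓ) f).mapMatrix := ⟨_, rfl⟩
  have hrz : (r : ZMod ℓ) ≠ 0 := by
    intro h
    exact hr ((CharP.cast_eq_zero_iff (ZMod ℓ) ℓ r).1 h)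
  obtain ⟨N, hN⟩ : ∃ N : ℕ, N = ((r : ZMod ℓ)⁻¹).val := ⟨_, rfl⟩
  have hNz : ((N * r : ℕ) : ZMod ℓ) = 1 := by
    rw [Nat.cast_mul, hN, ZMod.natCast_zmod_val, inv_mul_cancel₀ hrz]
  have hNA : ∀ (B : Type) [Ring B] [Algebra (ZMod ℓ) B], ((N * r : ℕ) : B) = 1 := by
    intro B _ _
    have h1 := congrArg (algebraMap (ZMod ℓ) B) hNz
    rwa [map_natCast, map_one] at h1
  have ha : (φ g) ^ r = 1 := by rw [← map_pow, hg, map_one]
  obtain ⟨h1, h2⟩ := avg (φ g) r N (hNA _) ha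
  have hpa : ψ (φ g) = 1 := by
    have e1 : ψ (φ g) = ((MonoidAlgebra.mapDomainRingHom (ZMod ℓ) f).comp
        (MonoidAlgebra.mapRingHom W (Int.castRingHom (ZMod ℓ)))).mapMatrix g := by
      rw [hψ, hφ]
      rfl
    rw [e1, ← MonoidAlgebra.mapRingHom_comp_mapDomainRingHom]
    have e2 : ((MonoidAlgebra.mapRingHom G (Int.castRingHom (ZMod ℓ))).comp
        (MonoidAlgebra.mapDomainRingHom ℤ f)).mapMatrix g =
        (MonoidAlgebra.mapRingHom G (Int.castRingHom (ZMod ℓ))).mapMatrix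
          (g.map (MonoidAlgebra.mapDomainRingHom ℤ f)) := rfl
    rw [e2, hg1, map_one]
  obtain ⟨e, he⟩ : ∃ e, e = (N : Matrix ι ι (MonoidAlgebra (ZMod ℓ) W)) *
    ∑ i ∈ range r, (φ g) ^ i := ⟨_, rfl⟩
  rw [← he] at h1 h2
  have hψe : ψ e = 1 := by
    rw [he, map_mul, map_natCast, map_sum]
    have h3 : ∀ i ∈ range r, ψ (φ g ^ i) = 1 := by
      intro i _
      rw [map_pow, hpa, one_pow]
    rw [Finset.sum_congr rfl h3, Finset.sum_const, card_range, nsmul_eq_mul, mul_one,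
      ← Nat.cast_mul]
    exact hNA _
  have hp := hOM (1 - e) (by
    rw [sub_mul, one_mul, mul_sub, mul_one, h1, sub_self, sub_zero]) (by
    have h3 : ψ (1 - e) = 0 := by rw [map_sub, map_one, hψe, sub_self]
    rw [hψ] at h3
    exact h3)
  have he1 : e = 1 := (sub_eq_zero.1 hp).symm
  rw [he1, mul_one] at h2
  rw [← hφ]
  exact h2

theorem main {W G : Type} [Group W] [Group G] (f : W →* G) {ι : Type} [Fintype ι] [DecidableEq ι]
    (hOM : ∀ (ℓ : ℕ) [Fact ℓ.Prime] (p : Matrix ι ι (MonoidAlgebra (ZMod ℓ) W)), p * p = p →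
      p.map (MonoidAlgebra.mapDomainRingHom (ZMod ℓ) f) = 0 → p = 0)
    (g : Matrix ι ι (MonoidAlgebra ℤ W)) (r : ℕ) (hr : 0 < r) (hg : g ^ r = 1)
    (hg1 : g.map (MonoidAlgebra.mapDomainRingHom ℤ f) = 1) : g = 1 := by
  rw [← sub_eq_zero]
  ext i j w
  obtain ⟨z, hz⟩ : ∃ z : ℤ, z = ((g - 1) i j).coeff w := ⟨_, rfl⟩
  change ((g - 1) i j).coeff w = (0 : MonoidAlgebra ℤ W).coeff w
  have h0 : (0 : MonoidAlgebra ℤ W).coeff w = 0 := rfl
  rw [h0, ← hz]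
  obtain ⟨ℓ, hℓ, hℓp⟩ := Nat.exists_infinite_primes (r + z.natAbs + 1)
  have hF : Fact ℓ.Prime := ⟨hℓp⟩
  have hnd : ¬ ℓ ∣ r := fun h => by
    have := Nat.le_of_dvd hr h
    omega
  have h1 := step f ℓ (hOM ℓ) g r hnd hg hg1
  have h2 : (MonoidAlgebra.mapRingHom W (Int.castRingHom (ZMod ℓ))).mapMatrix (g - 1) = 0 := by
    rw [map_sub, h1, map_one, sub_self]
  have h3 : MonoidAlgebra.mapRingHom W (Int.castRingHom (ZMod ℓ)) ((g - 1) i j) = 0 :=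
    congrFun (congrFun h2 i) j
  have h4 : (MonoidAlgebra.mapRingHom W (Int.castRingHom (ZMod ℓ)) ((g - 1) i j)).coeff w = 0 := by
    rw [h3]
    rfl
  rw [MonoidAlgebra.coeff_mapRingHom, ← hz] at h4
  have h5 : (z : ZMod ℓ) = 0 := h4
  rw [ZMod.intCast_zmod_eq_zero_iff_dvd] at h5
  by_contra hne
  have h6 := Int.natAbs_dvd_natAbs.2 h5
  rw [Int.natAbs_natCast] at h6
  have h7 := Nat.le_of_dvd (Int.natAbs_pos.2 hne) h6
  omega

end OMGaux

theorem t_OMG : S_OM2 → S_OMG := by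
  intro h G X _ _ ι _ _ g r hr hg hg1
  exact OMGaux.main _ (fun ℓ _ p hp hp0 => h ℓ G X ι p hp hp0) g r hr hg hg1

end Pool.Agent.H365.TF
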